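import Pool.Agent.Q115.MonoGadget
import Pool.Agent.Q115.MonoSmall

namespace Pool.Agent.Results.MP_161132_co.SlopeEightFifths

open Pool.Agent.Q115.Mono

/-- For every `k ≥ 2` a `k`-saturated graph exists on every number of vertices, so that
`h n k` is the least number of edges of such a graph, and
`h(n, k) ≤ (8 / 5) n + C(k)` for all `n`; in particular `h(n, k) ≤ 2 n` for all large `n`. -/
theorem result : ∀ k : ℕ, 2 ≤ k →
    (∀ n : ℕ, ∃ G : SimpleGraph (Fin n), KSaturated k G ∧ G.edgeSet.ncard = h n k) ∧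
    (∃ C : ℕ, ∀ n : ℕ, (h n k : ℝ) ≤ (8 / 5 : ℝ) * n + C) ∧
    (∃ n₀ : ℕ, ∀ n : ℕ, n₀ ≤ n → (h n k : ℝ) ≤ 2 * n) := by
  intro k hk
  have hex : ∀ n : ℕ, ∃ G : SimpleGraph (Fin n), KSaturated k G ∧ G.edgeSet.ncard = h n k := by
    intro n
    have hne : {m | ∃ G : SimpleGraph (Fin n), KSaturated k G ∧ G.edgeSet.ncard = m}.Nonempty := by
      obtain ⟨G, hG⟩ := exists_sat_any n k hk
      exact ⟨_, G, hG, rfl⟩
    obtain ⟨G, hG, hm⟩ := Nat.sInf_mem hne
    exact ⟨G, hG, hm⟩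
  have hmain : ∃ C : ℕ, ∀ n : ℕ, (h n k : ℝ) ≤ (8 / 5 : ℝ) * n + C := by
    rcases (by omega : k = 2 ∨ (k - 1 = 2 ∨ k - 1 = 3) ∨ 5 ≤ k) with h2 | h2 | h2
    · refine ⟨0, fun n => ?_⟩
      subst h2
      rw [h_two]
      push_cast
      positivity
    · refine ⟨64, fun n => ?_⟩
      have h3 := h_le_small h2 n
      rw [show k - 1 + 1 = k by omega] at h3
      have h4 : (h n k : ℝ) ≤ n + 64 := by exact_mod_cast h3
      have h5 : (0 : ℝ) ≤ n := Nat.cast_nonneg n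
      push_cast
      linarith
    · refine ⟨(5 * (k - 2) + 9) ^ 2, fun n => ?_⟩
      have h3 := h_le_gadget (m := k - 2) (by omega) n
      rw [show k - 2 + 2 = k by omega] at h3
      have h4 : (5 : ℝ) * h n k ≤ 8 * n + 5 * ((5 * (k - 2) + 9) ^ 2 : ℕ) := by
        exact_mod_cast h3
      linarith
  refine ⟨hex, hmain, ?_⟩
  obtain ⟨C, hC⟩ := hmain
  refine ⟨5 * C, fun n hn => ?_⟩
  have h1 := hC n
  have h2 : ((5 * C : ℕ) : ℝ) ≤ n := by exact_mod_cast hn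
  have h3 : (0 : ℝ) ≤ C := Nat.cast_nonneg C
  push_cast at h2
  linarith

end Pool.Agent.Results.MP_161132_co.SlopeEightFifths
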